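import Mathlib

/-!
# A planar oriented graph of digirth 5 with large feedback vertex number

There is a planar oriented graph with `12` vertices, `19` arcs, digirth `5` and feedback vertex
number at least `3 > (2 * 12 + 19) / (3 * 5)`.
-/

set_option autoImplicit false

namespace Pool.Agent.Results.MP_fa4488_co.DigirthFive

variable {V : Type*}

/-- An oriented graph: a digraph (given by its arc relation) with no loops and no digons. -/
def IsOriented (adj : V → V → Prop) : Prop := ∀ u v, adj u v → ¬ adj v u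

/-- `c` is a directed cycle of length `k` (for `1 ≤ k`) of the digraph `adj`: distinct vertices
`c 0, …, c (k - 1)` with arcs from `c i` to `c (i + 1)`, indices modulo `k`. -/
def IsDicycle (adj : V → V → Prop) (k : ℕ) (c : ZMod k → V) : Prop :=
  Function.Injective c ∧ ∀ i, adj (c i) (c (i + 1))

/-- The digirth of `adj` is `g`: `g` is the length of a shortest directed cycle. -/
def HasDigirth (adj : V → V → Prop) (g : ℕ) : Prop :=
  IsLeast {k : ℕ | 1 ≤ k ∧ ∃ c : ZMod k → V, IsDicycle adj k c} g

/-- `S` is a feedback vertex set: it meets every directed cycle. -/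
def IsFVS (adj : V → V → Prop) (S : Finset V) : Prop :=
  ∀ k, 1 ≤ k → ∀ c : ZMod k → V, IsDicycle adj k c → ∃ i, c i ∈ S

/-- `fvs adj` is the minimum size of a feedback vertex set. -/
noncomputable def fvs (adj : V → V → Prop) : ℕ :=
  sInf {s : ℕ | ∃ S : Finset V, S.card = s ∧ IsFVS adj S}

/-- The number of arcs. -/
noncomputable def numArcs (adj : V → V → Prop) : ℕ := {p : V × V | adj p.1 p.2}.ncard

/-- A drawing of `adj` in the plane without crossings: the vertices are distinct points, every arc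
`u → v` is a simple curve `crv u v : [0, 1] → ℝ²` from `u` to `v` whose interior contains no
vertex, and the interiors of curves of different arcs are disjoint. -/
structure PlaneDrawing (adj : V → V → Prop) where
  /-- the position of a vertex -/
  pt : V → ℝ × ℝ
  /-- the curve of an arc -/
  crv : V → V → ℝ → ℝ × ℝ
  pt_inj : Function.Injective pt
  cont : ∀ u v, adj u v → ContinuousOn (crv u v) (Set.Icc 0 1)
  inj : ∀ u v, adj u v → Set.InjOn (crv u v) (Set.Icc 0 1)
  src : ∀ u v, adj u v → crv u v 0 = pt u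
  tgt : ∀ u v, adj u v → crv u v 1 = pt v
  avoid : ∀ u v w, adj u v → ∀ t ∈ Set.Ioo (0 : ℝ) 1, crv u v t ≠ pt w
  disj : ∀ u v u' v', adj u v → adj u' v' → (u, v) ≠ (u', v') →
    ∀ s ∈ Set.Ioo (0 : ℝ) 1, ∀ t ∈ Set.Ioo (0 : ℝ) 1, crv u v s ≠ crv u' v' t

/-- `adj` is planar: it has a drawing in the plane without crossings. -/
def IsPlanar (adj : V → V → Prop) : Prop := Nonempty (PlaneDrawing adj)

/-! ### The example -/

/-- The arcs of the example. -/
def arcs : List (Fin 12 × Fin 12) :=
  [(0, 2), (0, 10), (1, 9), (2, 8), (3, 7), (3, 11), (4, 5), (5, 3), (5, 6), (6, 0), (6, 3), (7, 1),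
   (8, 3), (8, 7), (9, 2), (9, 6), (10, 4), (11, 0), (11, 10)]

/-- The arc relation of the example. -/
def adj (u v : Fin 12) : Prop := (u, v) ∈ arcs

instance : DecidableRel adj := fun u v => by unfold adj; infer_instance

/-- First coordinates of the vertices of the example. -/
def px : Fin 12 → ℤ := ![0, 4, 4, 4, 2, 2, 3, 5, 6, 3, 1, 1]

/-- Second coordinates of the vertices of the example. -/
def py : Fin 12 → ℤ := ![0, 1, 0, 5, 7, 5, 2, 3, 2, 1, 2, 9]

/-- The orientation of the triple of vertices `a, b, c`. -/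
def ori (a b c : Fin 12) : ℤ := (px b - px a) * (py c - py a) - (py b - py a) * (px c - px a)

/-- The orientation of three points. -/
def oriR (a b c : ℝ × ℝ) : ℝ := (b.1 - a.1) * (c.2 - a.2) - (b.2 - a.2) * (c.1 - a.1)

/-- The position of a vertex. -/
def pos (v : Fin 12) : ℝ × ℝ := ((px v : ℝ), (py v : ℝ))

/-- The straight segment from `u` to `v`. -/
noncomputable def seg (u v : Fin 12) (t : ℝ) : ℝ × ℝ :=
  ((1 - t) * px u + t * px v, (1 - t) * py u + t * py v)

lemma oriR_pos (a b c : Fin 12) : oriR (pos a) (pos b) (pos c) = (ori a b c : ℝ) := by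
  simp only [oriR, pos, ori]; push_cast; ring

lemma oriR_seg (a b c d : Fin 12) (t : ℝ) :
    oriR (pos a) (pos b) (seg c d t) = (1 - t) * (ori a b c : ℝ) + t * (ori a b d : ℝ) := by
  simp only [oriR, pos, ori, seg]; push_cast; ring

lemma oriR_seg_self (a b : Fin 12) (t : ℝ) : oriR (pos a) (pos b) (seg a b t) = 0 := by
  simp only [oriR, pos, seg]; ring

/-- The condition that `c, d` lie on one closed side of the line `a b`, not both on it. -/
def Side (a b c d : Fin 12) : Prop :=
  (0 ≤ ori a b c ∧ 0 ≤ ori a b d ∧ 0 < ori a b c + ori a b d) ∨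
    (ori a b c ≤ 0 ∧ ori a b d ≤ 0 ∧ ori a b c + ori a b d < 0)

instance (a b c d : Fin 12) : Decidable (Side a b c d) := by unfold Side; infer_instance

lemma ori_seg_ne {a b c d : Fin 12} (h : Side a b c d) {t : ℝ} (ht : t ∈ Set.Ioo (0 : ℝ) 1) :
    oriR (pos a) (pos b) (seg c d t) ≠ 0 := by
  rw [oriR_seg]
  obtain ⟨h0, h1⟩ := ht
  rcases h with ⟨h2, h3, h4⟩ | ⟨h2, h3, h4⟩
  · have h2' : (0 : ℝ) ≤ ori a b c := by exact_mod_cast h2
    have h3' : (0 : ℝ) ≤ ori a b d := by exact_mod_cast h3
    have h4' : (0 : ℝ) < ori a b c + ori a b d := by exact_mod_cast h4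
    apply ne_of_gt
    rcases h2'.lt_or_eq with h5 | h5
    · have := mul_pos (sub_pos.2 h1) h5
      have := mul_nonneg h0.le h3'
      linarith
    · have h6 : (0 : ℝ) < ori a b d := by linarith
      have := mul_pos h0 h6
      rw [← h5]; linarith
  · have h2' : (ori a b c : ℝ) ≤ 0 := by exact_mod_cast h2
    have h3' : (ori a b d : ℝ) ≤ 0 := by exact_mod_cast h3
    have h4' : (ori a b c + ori a b d : ℝ) < 0 := by exact_mod_cast h4
    apply ne_of_lt
    rcases h2'.lt_or_eq with h5 | h5
    · have := mul_neg_of_pos_of_neg (sub_pos.2 h1) h5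
      have := mul_nonpos_of_nonneg_of_nonpos h0.le h3'
      linarith
    · have h6 : (ori a b d : ℝ) < 0 := by linarith
      have := mul_neg_of_pos_of_neg h0 h6
      rw [h5]; linarith

lemma no_cross : ∀ e ∈ arcs, ∀ f ∈ arcs, e ≠ f →
    Side e.1 e.2 f.1 f.2 ∨ Side f.1 f.2 e.1 e.2 := by decide +kernel

lemma no_hit : ∀ e ∈ arcs, ∀ w : Fin 12, w ≠ e.1 → w ≠ e.2 → ori e.1 e.2 w ≠ 0 := by
  decide +kernel

lemma pos_inj : Function.Injective pos := by
  have h : ∀ u v : Fin 12, px u = px v → py u = py v → u = v := by decide +kernel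
  intro u v huv
  simp only [pos, Prod.mk.injEq, Int.cast_inj] at huv
  exact h u v huv.1 huv.2

lemma seg_zero (u v : Fin 12) : seg u v 0 = pos u := by simp [seg, pos]

lemma seg_one (u v : Fin 12) : seg u v 1 = pos v := by simp [seg, pos]

lemma seg_inj {u v : Fin 12} (huv : u ≠ v) {s t : ℝ} (h : seg u v s = seg u v t) : s = t := by
  simp only [seg, Prod.mk.injEq] at h
  by_contra hst
  have hx : (px v : ℝ) = px u := by
    have : (s - t) * ((px v : ℝ) - px u) = 0 := by linarith [h.1]
    rcases mul_eq_zero.1 this with h1 | h1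
    · exact absurd (sub_eq_zero.1 h1) hst
    · linarith
  have hy : (py v : ℝ) = py u := by
    have : (s - t) * ((py v : ℝ) - py u) = 0 := by linarith [h.2]
    rcases mul_eq_zero.1 this with h1 | h1
    · exact absurd (sub_eq_zero.1 h1) hst
    · linarith
  exact huv (pos_inj (by simp only [pos, hx, hy]))

lemma adj_ne {u v : Fin 12} (h : adj u v) : u ≠ v := by
  have h1 : ∀ u v : Fin 12, adj u v → u ≠ v := by decide +kernel
  exact h1 u v h

/-- The straight-line drawing of the example. -/
noncomputable def drawing : PlaneDrawing adj where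
  pt := pos
  crv := seg
  pt_inj := pos_inj
  cont := by
    intro u v _
    apply Continuous.continuousOn
    unfold seg
    fun_prop
  inj := by
    intro u v h s _ t _ hst
    exact seg_inj (adj_ne h) hst
  src := fun u v _ => seg_zero u v
  tgt := fun u v _ => seg_one u v
  avoid := by
    intro u v w h t ht hw
    by_cases hwu : w = u
    · subst hwu
      rw [← seg_zero w v] at hw
      exact ht.1.ne' (seg_inj (adj_ne h) hw)
    by_cases hwv : w = v
    · subst hwv
      rw [← seg_one u w] at hw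
      exact ht.2.ne (seg_inj (adj_ne h) hw)
    have h1 := no_hit (u, v) h w hwu hwv
    apply h1
    have h2 := oriR_seg_self u v t
    rw [hw, oriR_pos] at h2
    exact_mod_cast h2
  disj := by
    intro u v u' v' h h' hne s hs t ht hst
    rcases no_cross (u, v) h (u', v') h' hne with h1 | h1
    · apply ori_seg_ne h1 ht
      change oriR (pos u) (pos v) (seg u' v' t) = 0
      rw [← hst]; exact oriR_seg_self u v s
    · apply ori_seg_ne h1 hs
      change oriR (pos u') (pos v') (seg u v s) = 0
      rw [hst]; exact oriR_seg_self u' v' t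

lemma oriented : IsOriented adj := by
  have h : ∀ u v : Fin 12, adj u v → ¬ adj v u := by decide +kernel
  exact h

/-- Five directed cycles of length five. -/
def cyc : Fin 5 → Fin 5 → Fin 12 :=
  ![![1, 9, 2, 8, 7], ![0, 2, 8, 3, 11], ![0, 10, 4, 5, 6], ![3, 11, 10, 4, 5], ![1, 9, 6, 3, 7]]

lemma cyc_isDicycle (j : Fin 5) : IsDicycle adj 5 (cyc j) := by
  have h1 : ∀ j i i' : Fin 5, cyc j i = cyc j i' → i = i' := by decide +kernel
  have h2 : ∀ j i : Fin 5, adj (cyc j i) (cyc j (i + 1)) := by decide +kernel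
  exact ⟨fun i i' h => h1 j i i' h, fun i => h2 j i⟩

lemma no_two : ∀ x y : Fin 12, ∃ j : Fin 5, ∀ i : Fin 5, cyc j i ≠ x ∧ cyc j i ≠ y := by
  decide +kernel

lemma three_le_card {S : Finset (Fin 12)} (hS : IsFVS adj S) : 3 ≤ S.card := by
  by_contra hlt
  have hxy : ∃ x y : Fin 12, S ⊆ {x, y} := by
    have h2 : S.card = 0 ∨ S.card = 1 ∨ S.card = 2 := by omega
    rcases h2 with h | h | h
    · rw [Finset.card_eq_zero] at h
      exact ⟨0, 0, by simp [h]⟩
    · obtain ⟨x, rfl⟩ := Finset.card_eq_one.1 h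
      exact ⟨x, x, by simp⟩
    · obtain ⟨x, y, _, rfl⟩ := Finset.card_eq_two.1 h
      exact ⟨x, y, subset_rfl⟩
  obtain ⟨x, y, hsub⟩ := hxy
  obtain ⟨j, hj⟩ := no_two x y
  obtain ⟨i, hi⟩ := hS 5 (by norm_num) (cyc j) (cyc_isDicycle j)
  have := hsub hi
  rw [Finset.mem_insert, Finset.mem_singleton] at this
  rcases this with h | h
  · exact (hj i).1 h
  · exact (hj i).2 h

lemma three_le_fvs : 3 ≤ fvs adj := by
  apply le_csInf
  · refine ⟨_, Finset.univ, rfl, ?_⟩
    intro k _ c _
    exact ⟨0, Finset.mem_univ _⟩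
  · rintro s ⟨S, rfl, hS⟩
    exact three_le_card hS

lemma numArcs_eq : numArcs adj = 19 := by
  unfold numArcs
  rw [Set.ncard_eq_toFinset_card']
  decide +kernel

lemma short1 : ∀ a : Fin 12, ¬ adj a a := by decide +kernel
lemma short2 : ∀ a b : Fin 12, adj a b → ¬ adj b a := by decide +kernel
lemma short3 : ∀ a b c : Fin 12, adj a b → adj b c → ¬ adj c a := by decide +kernel
lemma short4 : ∀ a b c d : Fin 12, adj a b → adj b c → adj c d → ¬ adj d a := by decide +kernel

lemma digirth : HasDigirth adj 5 := by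
  refine ⟨⟨by norm_num, cyc 0, cyc_isDicycle 0⟩, ?_⟩
  rintro k ⟨hk1, c, -, hc⟩
  by_contra hk
  have hk5 : k < 5 := not_le.1 hk
  interval_cases k
  · exact short1 (c 0) (hc 0)
  · exact short2 (c 0) (c 1) (hc 0) (hc 1)
  · exact short3 (c 0) (c 1) (c 2) (hc 0) (hc 1) (hc 2)
  · exact short4 (c 0) (c 1) (c 2) (c 3) (hc 0) (hc 1) (hc 2) (hc 3)

/-- The inequality `fvs G ≤ (2 n + m) / (3 g)` fails for some planar oriented graph of digirth
`g ≥ 4` (namely `g = 5`, `n = 12`, `m = 19`). -/
theorem result :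
    ¬ ∀ (g : ℕ), 4 ≤ g → ∀ (n : ℕ) (adj : Fin n → Fin n → Prop),
      IsOriented adj → IsPlanar adj → HasDigirth adj g →
        (fvs adj : ℝ) ≤ (2 * (n : ℝ) + (numArcs adj : ℝ)) / (3 * (g : ℝ)) := by
  intro H
  have h := H 5 (by norm_num) 12 adj oriented ⟨drawing⟩ digirth
  have h3 : (3 : ℝ) ≤ fvs adj := by exact_mod_cast three_le_fvs
  rw [numArcs_eq] at h
  norm_num at h
  linarith

end Pool.Agent.Results.MP_fa4488_co.DigirthFive
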